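import Pool.Agent.SPE.Final0
import Pool.Agent.SPE.Fix

/-!
# Every mean-payoff game has a randomized eps-subgame-perfect equilibrium, for every eps > 0

The definitions are in `Pool.Agent.SPE.Game`.  That the expected payoffs used there are integrals of
integrable functions with respect to probability measures is recorded in `Pool.Agent.SPE.Prob`
(`integrable_meanPayoff`, `law_prob`).
-/

set_option autoImplicit false

namespace Pool.Agent.Results.MP_061e18_lc.RandomizedSPE

open _root_.SPE

/-- **Main theorem.** Let `G` be a finite directed graph without dead ends whose vertices are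
divided among finitely many players, `r i y z` the real reward of player `i` on the edge from `y`
to `z`, and `v0` a vertex.  For every `ε > 0` there is a profile `s` of randomized strategies that
is a randomized `ε`-subgame-perfect equilibrium of the mean-payoff game started at `v0`. -/
theorem result (V P : Type) [Fintype V] [MeasurableSpace V] [MeasurableSingletonClass V]
    [Finite P] [DecidableEq P] (G : Arena V P) (r : P → V → V → ℝ) (v0 : V) (ε : ℝ)
    (hε : 0 < ε) : ∃ s : P → Beh V, G.IsEpsSPE r v0 ε s := by
  obtain ⟨r', hr', hgen⟩ := exists_generic r (ε := ε / 4) (by positivity)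
  obtain ⟨B⟩ := exists_blueprint G r' hgen
  obtain ⟨s, hs⟩ := exists_epsSPE_of_blueprint B v0 (ε := ε / 2) (by positivity)
  refine ⟨s, ?_⟩
  have h := Arena.IsEpsSPE.perturb G r r' v0 (ε / 2) (ε / 4) hr' s hs
  have h2 : ε / 2 + 2 * (ε / 4) = ε := by ring
  rwa [h2] at h

end Pool.Agent.Results.MP_061e18_lc.RandomizedSPE
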